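import Pool.Agent.W203.WS.Stm

/-!
# WS-ALL: from shifts in the unit cube to all real shifts
-/

set_option autoImplicit false

open MeasureTheory Finset

namespace Pool.Agent.W565.WS

open Pool.Agent.W203.WS

theorem t_ALL (h : S_MAIN) : S_ALL := by
  intro k s δ hk hs hδ
  have h1 := h k s δ hk hs hδ
  have h2 := ae_imp_of_ae_restrict h1
  have h3 : ∀ n : Fin s → ℤ, ∀ᵐ θ : Fin s → ℝ,
      (θ - fun i => (n i : ℝ)) ∈ cube s →
        ∀ L : ℕ, ∃ M₀ : ℝ, ∀ M : ℝ, M₀ ≤ M → ∃ x : Fin s → ℕ, (∀ i, L ≤ x i) ∧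
          |(∑ i, ((x i : ℝ) + (θ - fun i => (n i : ℝ)) i) ^ k) - M| < M ^ (-δ) := by
    intro n
    exact (measurePreserving_sub_right (volume : Measure (Fin s → ℝ))
      (fun i => (n i : ℝ))).quasiMeasurePreserving.ae h2
  have h4 := ae_all_iff.2 h3
  filter_upwards [h4] with θ hθ L
  have hc : (θ - fun i => ((⌊θ i⌋ : ℤ) : ℝ)) ∈ cube s := by
    intro i _
    rw [Pi.sub_apply]
    constructor
    · have := Int.floor_le (θ i)
      linarith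
    · have := Int.lt_floor_add_one (θ i)
      linarith
  obtain ⟨M₀, hM₀⟩ := hθ (fun i => ⌊θ i⌋) hc (L.natAbs + ∑ i, (⌊θ i⌋).natAbs)
  refine ⟨M₀, fun M hM => ?_⟩
  obtain ⟨x, hx1, hx2⟩ := hM₀ M hM
  refine ⟨fun i => (x i : ℤ) - ⌊θ i⌋, fun i => ?_, ?_⟩
  · have h5 := hx1 i
    have h6 : (⌊θ i⌋).natAbs ≤ ∑ i, (⌊θ i⌋).natAbs :=
      Finset.single_le_sum (f := fun i => (⌊θ i⌋).natAbs) (fun _ _ => Nat.zero_le _)
        (Finset.mem_univ i)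
    show L ≤ (x i : ℤ) - ⌊θ i⌋
    omega
  · have h7 : (∑ i, (((((x i : ℤ) - ⌊θ i⌋ : ℤ)) : ℝ) + θ i) ^ k) =
        ∑ i, ((x i : ℝ) + (θ - fun i => ((⌊θ i⌋ : ℤ) : ℝ)) i) ^ k := by
      refine Finset.sum_congr rfl fun i _ => ?_
      rw [Pi.sub_apply]
      push_cast
      ring
    show |(∑ i, (((((x i : ℤ) - ⌊θ i⌋ : ℤ)) : ℝ) + θ i) ^ k) - M| < M ^ (-δ)
    rw [h7]
    exact hx2

end Pool.Agent.W565.WS
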